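import Pool.Agent.X49.Theta
import Pool.Agent.X49.Cactus

/-!
# MP_0fee77: saturation numbers of cycle families with bounded lengths

For `s = 4` the numbers `sat(n, C_[4,r])` and `sat(n, C_[4,∞))` differ for every odd `r ≥ 13` and
infinitely many `n`. The upper bound for the former comes from generalised theta graphs with
`D q + 2` vertices and `D (q + 1)` edges, which are `C_[4,2q+1]`-saturated. The lower bound
`7 n ≤ 6 m + 6` for the latter is proved here from scratch.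
-/

namespace Pool.Agent.Results.MP_0fee77_co.BoundedCycles

open SimpleGraph Pool.Agent.X49

/-- `G` is `C_I`-saturated: it contains no cycle `C_l` with `l ∈ I`, but adding the edge between
any two nonadjacent vertices creates one. -/
def Saturated {V : Type} (I : Set ℕ) (G : SimpleGraph V) : Prop :=
  (∀ l ∈ I, ¬ (cycleGraph l) ⊑ G) ∧
    ∀ x y : V, x ≠ y → ¬ G.Adj x y → ∃ l ∈ I, (cycleGraph l) ⊑ G ⊔ edge x y

/-- The saturation number: the least number of edges of a `C_I`-saturated graph on `n` vertices. -/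
noncomputable def sat (n : ℕ) (I : Set ℕ) : ℕ :=
  sInf {m | ∃ (V : Type) (_ : Finite V) (G : SimpleGraph V),
    Nat.card V = n ∧ Saturated I G ∧ G.edgeSet.ncard = m}

/-- There is a `C_I`-saturated graph on any number of vertices. -/
theorem exists_saturated (n : ℕ) (I : Set ℕ) (hI : ∀ l ∈ I, 3 ≤ l) :
    ∃ G : SimpleGraph (Fin n), Saturated I G := by
  have h0 : ∀ l ∈ I, ¬ (cycleGraph l) ⊑ (⊥ : SimpleGraph (Fin n)) := by
    intro l hl h
    rw [contained_iff (hI l hl)] at h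
    obtain ⟨g, hg⟩ := h
    exact hg.adj 0
  obtain ⟨G, -, hG⟩ := Finite.exists_le_maximal
    (p := fun G : SimpleGraph (Fin n) => ∀ l ∈ I, ¬ (cycleGraph l) ⊑ G) h0
  refine ⟨G, hG.1, fun x y hne hadj => ?_⟩
  by_contra hcon
  have h1 : G ⊔ edge x y ≤ G := hG.2 (fun l hl h => hcon ⟨l, hl, h⟩) le_sup_left
  apply hadj
  apply h1
  right
  rw [edge_adj]
  exact ⟨Or.inl ⟨rfl, rfl⟩, hne⟩

theorem sat_le (q D : ℕ) (hD : 2 ≤ D) (h : 2 ≤ q) :
    sat (D * q + 2) (Set.Icc 4 (2 * q + 1)) ≤ D * (q + 1) := by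
  have hq : 1 ≤ q := by omega
  refine le_trans (Nat.sInf_le ⟨TV D q, inferInstance, theta D q, card_TV, ?_, rfl⟩)
    (theta_edges hq)
  obtain ⟨h1, h2⟩ := theta_saturated (D := D) hq hD
  refine ⟨fun l hl => h1 l (by have := hl.1; omega) hl.2, fun x y hne hadj => ?_⟩
  obtain ⟨l, h3, h4, h5⟩ := h2 x y hne hadj
  exact ⟨l, ⟨by omega, h4⟩, h5⟩

theorem le_sat (n : ℕ) (hn : 3 ≤ n) : 7 * n ≤ 6 * sat n (Set.Ici 4) + 6 := by
  have hne : {m | ∃ (V : Type) (_ : Finite V) (G : SimpleGraph V),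
      Nat.card V = n ∧ Saturated (Set.Ici 4) G ∧ G.edgeSet.ncard = m}.Nonempty := by
    obtain ⟨G, hG⟩ := exists_saturated n (Set.Ici 4) (fun l hl => by
      have : 4 ≤ l := hl
      omega)
    exact ⟨_, Fin n, inferInstance, G, by simp, hG, rfl⟩
  obtain ⟨V, hV, G, h1, h2, h3⟩ := Nat.sInf_mem hne
  have h4 := cactus_bound (G := G) (fun l hl => h2.1 l hl)
    (fun x y hxy hadj => h2.2 x y hxy hadj) (by omega)
  rw [h1, h3] at h4
  exact h4

/-- **Negative answer to Q1.** For all `q ≥ 6` and `D ≥ 2`, with `n = D q + 2`, we have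
`sat(n, C_[4,2q+1]) ≤ D (q + 1) < n - 1 + n / 6 ≤ sat(n, C_[4,∞))`. So for `s = 4` the two
saturation numbers differ for every odd `r ≥ 13` and infinitely many `n`, and the statement of Q1
is false. -/
theorem result :
    (∀ q D : ℕ, 6 ≤ q → 2 ≤ D →
      sat (D * q + 2) (Set.Icc 4 (2 * q + 1)) ≤ D * (q + 1) ∧
      D * (q + 1) < sat (D * q + 2) (Set.Ici 4)) ∧
    (∀ n : ℕ, 3 ≤ n → (n : ℚ) - 1 + n / 6 ≤ sat n (Set.Ici 4)) ∧
    (∀ r : ℕ, 13 ≤ r → Odd r → ∀ N : ℕ, ∃ n, N ≤ n ∧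
      sat n (Set.Icc 4 r) < sat n (Set.Ici 4)) ∧
    ¬ ∀ s : ℕ, 4 ≤ s → ∃ r₀ : ℕ, ∀ r, r₀ ≤ r → ∃ N : ℕ, ∀ n, N ≤ n →
      sat n (Set.Icc s r) = sat n (Set.Ici s) := by
  have h1 : ∀ q D : ℕ, 6 ≤ q → 2 ≤ D →
      sat (D * q + 2) (Set.Icc 4 (2 * q + 1)) ≤ D * (q + 1) ∧
      D * (q + 1) < sat (D * q + 2) (Set.Ici 4) := by
    intro q D hq hD
    refine ⟨sat_le q D hD (by omega), ?_⟩
    have h2 := le_sat (D * q + 2) (by nlinarith)
    have h3 : D * 6 ≤ D * q := Nat.mul_le_mul_left _ hq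
    have h4 : D * (q + 1) = D * q + D := by ring
    omega
  have h2 : ∀ r : ℕ, 13 ≤ r → Odd r → ∀ N : ℕ, ∃ n, N ≤ n ∧
      sat n (Set.Icc 4 r) < sat n (Set.Ici 4) := by
    intro r hr hodd N
    obtain ⟨q, rfl⟩ := hodd
    obtain ⟨h3, h4⟩ := h1 q (N + 2) (by omega) (by omega)
    refine ⟨(N + 2) * q + 2, ?_, lt_of_le_of_lt h3 h4⟩
    have : (N + 2) * 1 ≤ (N + 2) * q := Nat.mul_le_mul_left _ (by omega)
    omega
  refine ⟨h1, ?_, h2, fun h => ?_⟩
  · intro n hn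
    have h3 := le_sat n hn
    have h4 : (7 : ℚ) * n ≤ 6 * sat n (Set.Ici 4) + 6 := by exact_mod_cast h3
    linarith
  · obtain ⟨r₀, hr⟩ := h 4 le_rfl
    obtain ⟨N, hN⟩ := hr (2 * (r₀ + 6) + 1) (by omega)
    obtain ⟨n, hn, hlt⟩ := h2 (2 * (r₀ + 6) + 1) (by omega) ⟨r₀ + 6, rfl⟩ N
    exact absurd (hN n hn) hlt.ne

end Pool.Agent.Results.MP_0fee77_co.BoundedCycles
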